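import Pool.Agent.Helper15.FC.St5

/-!
# Project FC (MP_16cbc0_nt), module LOC
-/

set_option autoImplicit false

namespace Pool.Agent.Helper6.FC

open Pool.Agent.Helper15.FC Polynomial

/-- the telescoping inequality -/
lemma loc_num (X : ℝ) (hX : 0 ≤ X) (y : ℕ → ℝ) (h0 : y 0 = 1) (hy : ∀ i, y (i + 1) ≤ y i) (v : ℕ) :
    1 - y 1 ≤ y 0 + ∑ i ∈ Finset.range v, y (i + 1) * (X ^ (i + 1) - X ^ i) -
      y (v + 1) * X ^ v := by
  induction v with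
  | zero => simp [h0]
  | succ v ih =>
    rw [Finset.sum_range_succ]
    have h1 : 0 ≤ X ^ (v + 1) * (y (v + 1) - y (v + 1 + 1)) :=
      mul_nonneg (pow_nonneg hX _) (sub_nonneg.mpr (hy (v + 1)))
    have h2 : y (v + 1) * (X ^ (v + 1) - X ^ v) - y (v + 1 + 1) * X ^ (v + 1) + y (v + 1) * X ^ v =
        X ^ (v + 1) * (y (v + 1) - y (v + 1 + 1)) := by ring
    linarith

theorem hLOC (hGKP : StGKP) (hGKM : StGKM) (hCRM : StCRM) : StLOC := by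
  intro F _ _ j j' a P h hP hirr hPa
  obtain ⟨c1, -, cP⟩ := hCRM F h
  obtain ⟨D, hD⟩ : ∃ D, D = P.natDegree := ⟨_, rfl⟩
  rw [← hD]
  obtain ⟨X, hXdef⟩ : ∃ X : ℝ, X = qr F ^ D := ⟨_, rfl⟩
  have hq1 : (1 : ℝ) ≤ qr F := by
    change (1 : ℝ) ≤ (Fintype.card F : ℝ)
    exact_mod_cast Fintype.card_pos
  have hX1 : 1 ≤ X := by rw [hXdef]; exact one_le_pow₀ hq1
  have hX0 : 0 < X := by linarith
  -- the sequence y
  obtain ⟨y, hy⟩ : ∃ y : ℕ → ℝ, ∀ i, y i = Gk j (P ^ i) * Gk j' (P ^ i) * (X⁻¹) ^ (2 * i) :=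
    ⟨_, fun _ => rfl⟩
  have hdeg : ∀ i, (qr F ^ (2 * (P ^ i).natDegree))⁻¹ = (X⁻¹) ^ (2 * i) := by
    intro i
    rw [hP.natDegree_pow, ← hD, hXdef, ← inv_pow, ← inv_pow, ← pow_mul]
    congr 1
    ring
  have hy0 : y 0 = 1 := by
    rw [hy, pow_zero, (hGKM F j).1, (hGKM F j').1]
    simp
  have hmono : ∀ i, y (i + 1) ≤ y i := by
    intro i
    have g1 := (hGKP F j P hP hirr).2.2 i
    have g2 := (hGKP F j' P hP hirr).2.2 i
    rw [← hD, ← hXdef] at g1 g2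
    have n1 : 0 ≤ Gk j (P ^ (i + 1)) := ((hGKM F j).2.2 _ (hP.pow _)).1
    have n2 : 0 ≤ Gk j' (P ^ (i + 1)) := ((hGKM F j').2.2 _ (hP.pow _)).1
    have n3 : 0 ≤ Gk j (P ^ i) := ((hGKM F j).2.2 _ (hP.pow _)).1
    have hXi : 0 ≤ X⁻¹ := inv_nonneg.mpr hX0.le
    have g3 : (X⁻¹ * Gk j (P ^ (i + 1))) * (X⁻¹ * Gk j' (P ^ (i + 1))) ≤
        Gk j (P ^ i) * Gk j' (P ^ i) :=
      mul_le_mul g1 g2 (mul_nonneg hXi n2) n3
    rw [hy, hy]
    calc Gk j (P ^ (i + 1)) * Gk j' (P ^ (i + 1)) * X⁻¹ ^ (2 * (i + 1))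
        = ((X⁻¹ * Gk j (P ^ (i + 1))) * (X⁻¹ * Gk j' (P ^ (i + 1)))) * X⁻¹ ^ (2 * i) := by ring
      _ ≤ Gk j (P ^ i) * Gk j' (P ^ i) * X⁻¹ ^ (2 * i) :=
        mul_le_mul_of_nonneg_right g3 (pow_nonneg hXi _)
  -- the exponent v
  have hex : ∃ v, v < a ∧ P ^ v ∣ h ∧ ¬ P ^ (v + 1) ∣ h := by
    classical
    have hE : ∃ n, ¬ P ^ n ∣ h := ⟨a, hPa⟩
    have hs := Nat.find_spec hE
    have hle : Nat.find hE ≤ a := Nat.find_min' hE hPa
    cases hn : Nat.find hE with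
    | zero =>
      rw [hn, pow_zero] at hs
      exact absurd (one_dvd h) hs
    | succ v =>
      refine ⟨v, by omega, ?_, ?_⟩
      · by_contra hc
        have := Nat.find_min' hE hc
        omega
      · rw [hn] at hs
        exact hs
  obtain ⟨v, hva, hv1, hv2⟩ := hex
  have hc1 : ∀ i, i < v → ((cram (P ^ (i + 1)) h : ℤ) : ℝ) = X ^ (i + 1) - X ^ i := by
    intro i hi
    have hd : P ^ (i + 1) ∣ h := dvd_trans (pow_dvd_pow P (by omega)) hv1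
    rw [(cP P i hP hirr).1 hd, ← hD]
    push_cast
    rw [hXdef, ← pow_mul, ← pow_mul]
  have hc2 : ((cram (P ^ (v + 1)) h : ℤ) : ℝ) = - X ^ v := by
    rw [(cP P v hP hirr).2.1 hv1 hv2, ← hD]
    push_cast
    rw [hXdef, ← pow_mul]
  have hc3 : ∀ i, v < i → ((cram (P ^ (i + 1)) h : ℤ) : ℝ) = 0 := by
    intro i hi
    have hd : ¬ P ^ i ∣ h := fun hd => hv2 (dvd_trans (pow_dvd_pow P (by omega)) hd)
    rw [(cP P i hP hirr).2.2 hd]
    simp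
  -- the sum
  have hsum : ∑ i ∈ Finset.range (a + 1), Gk j (P ^ i) * Gk j' (P ^ i) *
      (qr F ^ (2 * (P ^ i).natDegree))⁻¹ * (cram (P ^ i) h : ℝ) =
      y 0 + ∑ i ∈ Finset.range v, y (i + 1) * (X ^ (i + 1) - X ^ i) - y (v + 1) * X ^ v := by
    have e1 : ∀ i ∈ Finset.range (a + 1), Gk j (P ^ i) * Gk j' (P ^ i) *
        (qr F ^ (2 * (P ^ i).natDegree))⁻¹ * (cram (P ^ i) h : ℝ) =
        y i * (cram (P ^ i) h : ℝ) := by
      intro i _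
      rw [hdeg, hy]
    rw [Finset.sum_congr rfl e1, Finset.sum_range_succ']
    have e2 : y 0 * ((cram (P ^ 0) h : ℤ) : ℝ) = y 0 := by
      rw [pow_zero, c1]
      simp
    rw [e2]
    have e3 : ∑ i ∈ Finset.range a, y (i + 1) * ((cram (P ^ (i + 1)) h : ℤ) : ℝ) =
        ∑ i ∈ Finset.range (v + 1), y (i + 1) * ((cram (P ^ (i + 1)) h : ℤ) : ℝ) := by
      symm
      refine Finset.sum_subset (Finset.range_subset_range.mpr (by omega)) fun i _ hi => ?_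
      rw [Finset.mem_range, not_lt] at hi
      rw [hc3 i (by omega), mul_zero]
    rw [e3, Finset.sum_range_succ, hc2]
    have e4 : ∑ i ∈ Finset.range v, y (i + 1) * ((cram (P ^ (i + 1)) h : ℤ) : ℝ) =
        ∑ i ∈ Finset.range v, y (i + 1) * (X ^ (i + 1) - X ^ i) :=
      Finset.sum_congr rfl fun i hi => by rw [hc1 i (Finset.mem_range.mp hi)]
    rw [e4]
    ring
  rw [hsum]
  have hy1 : (qr F ^ D)⁻¹ * Gk j P * ((qr F ^ D)⁻¹ * Gk j' P) = y 1 := by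
    rw [hy, ← hXdef, pow_one]
    ring
  rw [hy1]
  exact loc_num X hX0.le y hy0 hmono v

end Pool.Agent.Helper6.FC
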