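import Pool.Agent.Helper15.FC.St1

/-!
# Project FC (MP_16cbc0_nt), module NUM
-/

set_option autoImplicit false

namespace Pool.Agent.Helper6.FC

open Pool.Agent.Helper15.FC Polynomial

theorem hNUM : StNUM := by
  intro h K hh
  refine ⟨2 * K + (K + 2) + h + (K + 2) * h + K * (K + 2) + 1, (2 * K + 4 : ℝ), fun P hP => ?_⟩
  obtain ⟨l, hl⟩ : ∃ l, l = (P - 1) / h := ⟨_, rfl⟩
  obtain ⟨r, hr⟩ : ∃ r, r = (P + K + (K + 2)) / h := ⟨_, rfl⟩
  have hh0 : 0 < h := hh
  have hKh : h ≤ (K + 2) * h := Nat.le_mul_of_pos_left h (by omega)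
  have hP1 : 1 ≤ P := by omega
  -- bounds for h * l
  have e1 : h * l ≤ P - 1 := by
    rw [hl]
    exact Nat.mul_div_le (P - 1) h
  have e2 : P ≤ h * l + h := by
    have h1 := Nat.lt_mul_div_succ (P - 1) hh0
    rw [← hl, Nat.mul_add, Nat.mul_one] at h1
    omega
  -- bounds for h * r
  have f1 : h * r ≤ P + K + (K + 2) := by
    rw [hr]
    exact Nat.mul_div_le _ h
  have f2 : P + K + (K + 2) < h * r + h := by
    have h1 := Nat.lt_mul_div_succ (P + K + (K + 2)) hh0
    rw [← hr, Nat.mul_add, Nat.mul_one] at h1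
    exact h1
  have hm : h * (r + 1) = h * r + h := by ring
  refine ⟨l, r + 1, by omega, ?_, ?_⟩
  · intro vl vm v h1 h2 h3
    obtain ⟨w, hw⟩ : ∃ w, h * l = K + w := ⟨h * l - K, by omega⟩
    have g1 : w ≤ vl := by omega
    have g2 : P + (K + 2) ≤ vm := by omega
    have g3 : w * (P + (K + 2)) ≤ vl * vm := Nat.mul_le_mul g1 g2
    have g4 : h * (l * P + (r + 1)) = (K + w) * P + (h * r + h) := by
      rw [Nat.mul_add, ← Nat.mul_assoc, hw, hm]
    rw [g4] at h3
    have g5 : P ≤ K + w + h := by omega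
    have g6 : (K + w) * P + (h * r + h) + K < w * (P + (K + 2)) := by
      have g7 : P * (K + 2) ≤ (K + w + h) * (K + 2) := Nat.mul_le_mul_right _ g5
      nlinarith [g7, f1, hP]
    omega
  · have hhR : (1 : ℝ) ≤ h := by exact_mod_cast hh
    have hPR : (1 : ℝ) ≤ P := by exact_mod_cast hP1
    have hKR : (0 : ℝ) ≤ K := Nat.cast_nonneg K
    have l1 : (l : ℝ) ≤ P := by
      have : l ≤ P := by
        rw [hl]
        exact le_trans (Nat.div_le_self _ _) (Nat.sub_le _ _)
      exact_mod_cast this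
    have r1 : (r : ℝ) ≤ (P + 2 * K + 2) / h := by
      rw [le_div_iff₀ (by linarith)]
      have : h * r ≤ P + K + (K + 2) := f1
      have h2 : ((h * r : ℕ) : ℝ) ≤ ((P + K + (K + 2) : ℕ) : ℝ) := by exact_mod_cast this
      push_cast at h2
      linarith
    have r2 : ((P : ℝ) + 2 * K + 2) / h ≤ P / h + (2 * K + 2) := by
      rw [add_assoc, add_div]
      have : (2 * (K : ℝ) + 2) / h ≤ 2 * K + 2 := div_le_self (by linarith) hhR
      linarith
    have r3 : (r : ℝ) ≤ P / h + (2 * K + 2) := le_trans r1 r2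
    push_cast
    have r4 : ((r : ℝ) + 1) * P ≤ (P / h + (2 * K + 2) + 1) * P :=
      mul_le_mul_of_nonneg_right (by linarith) (by linarith)
    have r5 : ((P : ℝ) / h + (2 * K + 2) + 1) * P = (P : ℝ) ^ 2 / h + (2 * K + 3) * P := by
      ring
    linarith

end Pool.Agent.Helper6.FC
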